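import Pool.Agent.helper27.SY.Spec

/-!
# Project sy (MP_5628fe_nt): module FSP, spacing of the fractions
-/

set_option autoImplicit false

open Finset ArithmeticFunction

namespace Pool.Agent.SY

open Pool.Agent.SX Pool.Agent.helper85.BVP

/-- reduced fractions are determined by their value. -/
theorem FSP_uniq (a q a' q' : ℕ) (hq : 0 < q) (hq' : 0 < q') (h : Nat.Coprime a q)
    (h' : Nat.Coprime a' q') (e : a * q' = a' * q) : a = a' ∧ q = q' := by
  have h1 : q ∣ a * q' := ⟨a', by rw [e, mul_comm]⟩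
  have h2 : q ∣ q' := (Nat.Coprime.symm h).dvd_of_dvd_mul_left h1
  have h3 : q' ∣ a' * q := ⟨a, by rw [← e, mul_comm]⟩
  have h4 : q' ∣ q := (Nat.Coprime.symm h').dvd_of_dvd_mul_left h3
  have h5 : q = q' := Nat.dvd_antisymm h2 h4
  subst h5
  exact ⟨Nat.eq_of_mul_eq_mul_right hq e, rfl⟩

theorem FSP : FSP_stmt := by
  intro D j hj k hk hne
  obtain ⟨q, a⟩ := j
  obtain ⟨q', a'⟩ := k
  simp only [JJ, mem_filter, mem_product, mem_Icc, mem_range] at hj hk
  obtain ⟨⟨⟨hq2, hqD⟩, _⟩, ha1, haq, hc⟩ := hj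
  obtain ⟨⟨⟨hq2', hqD'⟩, _⟩, ha1', haq', hc'⟩ := hk
  have hq0 : (0 : ℝ) < q := by exact_mod_cast (by omega : 0 < q)
  have hq0' : (0 : ℝ) < q' := by exact_mod_cast (by omega : 0 < q')
  have hD0 : (0 : ℝ) < D := by exact_mod_cast (by omega : 0 < D)
  simp only [fr, sd]
  obtain ⟨r, hr⟩ : ∃ r : ℤ, r = round ((a : ℝ) / q - (a' : ℝ) / q') := ⟨_, rfl⟩
  rw [← hr]
  obtain ⟨N, hN⟩ : ∃ N : ℤ, N = a * q' - a' * q - r * (q * q') := ⟨_, rfl⟩
  have hval : (a : ℝ) / q - (a' : ℝ) / q' - r = (N : ℝ) / (q * q') := by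
    rw [hN]
    push_cast
    field_simp
  have hN0 : N ≠ 0 := by
    intro h0
    rw [h0, Int.cast_zero, zero_div] at hval
    have hr' : (r : ℝ) = (a : ℝ) / q - (a' : ℝ) / q' := by linarith
    have e1 : (a : ℝ) / q < 1 := by
      rw [div_lt_one hq0]
      exact_mod_cast haq
    have e2 : (a' : ℝ) / q' < 1 := by
      rw [div_lt_one hq0']
      exact_mod_cast haq'
    have e3 : 0 < (a : ℝ) / q := div_pos (by exact_mod_cast (by omega : 0 < a)) hq0
    have e4 : 0 < (a' : ℝ) / q' := div_pos (by exact_mod_cast (by omega : 0 < a')) hq0'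
    have e5 : (r : ℝ) < 1 := by linarith
    have e6 : (-1 : ℝ) < r := by linarith
    have e7 : r < 1 := by exact_mod_cast e5
    have e8 : -1 < r := by exact_mod_cast e6
    have e9 : r = 0 := by omega
    rw [e9, Int.cast_zero] at hr'
    have e10 : (a : ℝ) / q = (a' : ℝ) / q' := by linarith
    rw [div_eq_div_iff hq0.ne' hq0'.ne'] at e10
    have e11 : a * q' = a' * q := by exact_mod_cast e10
    obtain ⟨e12, e13⟩ := FSP_uniq a q a' q' (by omega) (by omega) hc hc' e11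
    exact hne (by rw [e12, e13])
  rw [hval, abs_div]
  have h1 : (1 : ℝ) ≤ |(N : ℝ)| := by
    have h2 : 1 ≤ |N| := Int.one_le_abs hN0
    exact_mod_cast h2
  have h3 : |(q : ℝ) * q'| = (q : ℝ) * q' := abs_of_pos (mul_pos hq0 hq0')
  rw [h3]
  have h4 : (q : ℝ) * q' ≤ (D : ℝ) ^ 2 := by
    rw [pow_two]
    exact mul_le_mul (by exact_mod_cast hqD) (by exact_mod_cast hqD') hq0'.le hD0.le
  calc 1 / (D : ℝ) ^ 2 ≤ 1 / ((q : ℝ) * q') := one_div_le_one_div_of_le (mul_pos hq0 hq0') h4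
    _ ≤ |(N : ℝ)| / ((q : ℝ) * q') := div_le_div_of_nonneg_right h1 (mul_pos hq0 hq0').le

end Pool.Agent.SY
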